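import Pool.Agent.H884.Main
import Pool.Agent.H884.Parts
import Pool.Agent.H884.ExSharp
import Pool.Agent.H884.Quad2

/-!
`MP_884cd1_co`: disjoint transversals in row-Latin rectangles.  For every `n` the answer to Q1 is
positive for all `m ≥ (4 n) ^ (2 n)` and every `k`, and for all `m` if a large part of the rows is
regular.  For all `m, n, k` there are at least `m - n (n - 1)` pairwise disjoint transversals; a
criterion for `m` of them; the case `n = 2`; `n` rows that are a union of `n` disjoint transversals;
an unconditional finite reduction.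
-/

namespace Pool.Agent.Results.MP_884cd1_co.Deficiency

open H884 Finset

theorem result :
    -- (1) the exact number `m - (n - 1)` for every `n` and all `m ≥ (4 n) ^ (2 n)`
    (∀ (m n k : ℕ) (A : Fin m → Fin n → Fin k), 1 ≤ n → (4 * n) ^ (2 * n) ≤ m → RowLatin A →
      HasDisjoint A (m - (n - 1))) ∧
    -- (2) the exact number for any `m` if a large part `H` of the rows is regular
    (∀ (m n k : ℕ) (A : Fin m → Fin n → Fin k), 1 ≤ n → RowLatin A → ∀ H : Finset (Fin m),
      (∀ j, (∀ i ∈ H, ∀ i' ∈ H, A i j = A i' j) ∨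
        ∀ s, 4 * n * (H.filter (fun i => A i j = s)).card ≤ H.card) →
      (n + 4) * (m - H.card) + 8 * n + 1 ≤ H.card → HasDisjoint A (m - (n - 1))) ∧
    -- (3) a deficiency bounded in terms of `n` only, quadratic in `n`, for all `m`
    (∀ (m n k : ℕ) (A : Fin m → Fin n → Fin k), RowLatin A →
      HasDisjoint A (m - n * (n - 1))) ∧
    -- (4) full decompositions into `m` transversals
    (∀ (m n k : ℕ) (A : Fin m → Fin n → Fin k), RowLatin A →
      (∀ c : Fin n, ∃ (H : Set (Fin k)) (w w' : ℕ),
        (∀ a ∈ H, (∃ r, A r c = a) → 2 * c.val ≤ (univ.filter (fun r => A r c = a)).card) ∧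
        (∀ a, a ∉ H → (univ.filter (fun r => A r c = a)).card ≤ w ∧
          ∑ j ∈ univ.erase c, (univ.filter (fun r => A r j = a)).card ≤ w') ∧
        ((∀ r, A r c ∈ H) ∨
          ∃ L : Finset (Fin m), (∀ r ∈ L, A r c ∉ H) ∧
            2 * c.val + (n - 1) * w + w' ≤ L.card)) →
      HasDisjoint A m) ∧
    -- (5) the question for `n = 2`
    (∀ (m k : ℕ) (A : Fin m → Fin 2 → Fin k), 3 ≤ m → RowLatin A → HasDisjoint A (m - 1)) ∧
    -- (6) `n` rows that are the union of `n` disjoint transversals
    (∀ (m n k : ℕ) (A : Fin m → Fin n → Fin k), 1 ≤ n → RowLatin A → (n - 1) * n ^ n < m →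
      ∃ B : Finset (Fin m), B.card = n ∧ HasDisjointIn A B n) ∧
    -- (7) for each `n` the question is a finite problem
    (∀ n : ℕ, 1 ≤ n →
      (∀ m, 2 * n - 1 ≤ m → m ≤ (n - 1) * n ^ n → ∀ A : Fin m → Fin n → Fin (m * n),
        RowLatin A → HasDisjoint A (m - (n - 1))) →
      ∀ m k, 2 * n - 1 ≤ m → ∀ A : Fin m → Fin n → Fin k, RowLatin A →
        HasDisjoint A (m - (n - 1))) := by
  refine ⟨fun m n k A hn hm hA => exact_of_le hn hm A hA, fun m n k A hn hA H hH hc => ?_,
    fun m n k A hA => quad_deficiency A hA, fun m n k A hA h => exact_all A hA h,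
    fun m k A hm hA => case_two hm A hA, fun m n k A hn hA hm => ?_, fun n hn h => reduction n hn h⟩
  · have hR : (univ \ H : Finset (Fin m)).card = m - H.card := by
      rw [card_sdiff_of_subset (subset_univ H), card_univ, Fintype.card_fin]
    have hHm : H.card ≤ m := by simpa using card_le_univ H
    have h := steady_union hn hA H (univ \ H) (disjoint_sdiff (s := H) (t := univ)) hH
      (by rw [hR]; exact hc)
    rw [hR] at h
    have e : H.card + (m - H.card) - (n - 1) = m - (n - 1) := by omega
    rw [e] at h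
    exact h.hasDisjoint
  · obtain ⟨B, -, h1, h2⟩ := block hn hA univ (by rw [card_univ, Fintype.card_fin]; exact hm)
    exact ⟨B, h1, h2⟩

end Pool.Agent.Results.MP_884cd1_co.Deficiency
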